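import Mathlib.RingTheory.Coprime.Lemmas
import Mathlib.Algebra.Notation.Lemmas
import Mathlib.Tactic.LinearCombination
import Mathlib.Data.Int.Star
import Mathlib.Algebra.Order.Ring.Star
import Mathlib.Analysis.Normed.Field.Lemmas
import Mathlib.Algebra.Ring.IsFormallyReal
import Mathlib.Data.Rat.Star
import Mathlib.Tactic.Algebra.Basic

set_option autoImplicit false

namespace Pool.Agent.MP_ebd346_nt

/-- A state: a rational point of the form `2P` on `y^2 = x (x - N^2) (x - N^2 - 4)`,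
recorded through the three square roots. -/
def St (N : ℚ) (p : ℚ × ℚ × ℚ) : Prop :=
  p.1 ^ 2 - p.2.1 ^ 2 = N ^ 2 ∧ p.2.1 ^ 2 - p.2.2 ^ 2 = 4

/-- Doubling from a point given by the three values and the product. -/
lemma double_pre (N a b c Y : ℚ) (h1 : a - b = N ^ 2) (h2 : b - c = 4) (hY : Y ^ 2 = a * b * c)
    (hY0 : Y ≠ 0) :
    St N ((a * b + a * c - b * c) / (2 * Y), (a * b + b * c - a * c) / (2 * Y),
      (a * c + b * c - a * b) / (2 * Y)) := by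
  have habc : a * b * c ≠ 0 := by rw [← hY]; exact pow_ne_zero _ hY0
  have ha : a ≠ 0 := fun h => habc (by simp [h])
  have hb : b ≠ 0 := fun h => habc (by simp [h])
  have hc : c ≠ 0 := fun h => habc (by simp [h])
  constructor
  · simp only [div_pow, mul_pow, hY]
    rw [← h1]; field_simp; ring
  · simp only [div_pow, mul_pow, hY]
    rw [← h2]; field_simp; ring

lemma st_ne (N : ℚ) (hN : N ≠ 0) (hns : ∀ q : ℚ, q ^ 2 ≠ N ^ 2 + 4) {A B C : ℚ}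
    (h : St N (A, B, C)) : A ≠ 0 ∧ B ≠ 0 ∧ C ≠ 0 := by
  obtain ⟨h1, h2⟩ := h
  simp only at h1 h2
  have hN2 : 0 < N ^ 2 := by positivity
  refine ⟨?_, ?_, ?_⟩
  · rintro rfl; nlinarith [sq_nonneg B]
  · rintro rfl; nlinarith [sq_nonneg C]
  · rintro rfl; exact hns A (by linarith)

/-- The measure. -/
def mu (q : ℚ) : ℕ := q.num.natAbs * q.den

lemma mu_lt (κ : ℤ) (ρ w ρ' : ℚ) (hρ : ρ ≠ 0) (hw : w ≠ 0) (hρ' : ρ' ≠ 0)
    (hw2 : w ^ 2 = ρ ^ 4 + κ * ρ ^ 2 + 1) (hdef : ρ' * (2 * ρ * w) = ρ ^ 4 - 1)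
    (hκ : ∀ r s : ℤ, r ≠ 0 → s ≠ 0 →
      (r ^ 4 - s ^ 4) ^ 2 ≠ 4 * (r ^ 4 + κ * r ^ 2 * s ^ 2 + s ^ 4)) :
    mu ρ < mu ρ' := by
  set r : ℤ := ρ.num with hr
  set s : ℤ := (ρ.den : ℤ) with hs
  have hs0 : s ≠ 0 := by simp [hs]
  have hsq : (s : ℚ) ≠ 0 := by exact_mod_cast hs0
  have hr0 : r ≠ 0 := by simpa [hr] using hρ
  have hρe : ρ = (r : ℚ) / s := by simp [hr, hs, Rat.num_div_den]
  have hcop : IsCoprime r s := by
    rw [Int.isCoprime_iff_gcd_eq_one]; exact ρ.reduced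
  -- `ω = w s^2` is an integer
  have hω2 : (w * s ^ 2) ^ 2 = ((r ^ 4 + κ * r ^ 2 * s ^ 2 + s ^ 4 : ℤ) : ℚ) := by
    rw [mul_pow, hw2, hρe]; push_cast; field_simp
  have hden : (w * s ^ 2).den = 1 := by
    have h1 : ((w * s ^ 2) ^ 2).den = 1 := by rw [hω2]; exact Rat.den_intCast _
    rw [Rat.den_pow] at h1
    exact (pow_eq_one_iff.1 h1).resolve_right (by norm_num)
  obtain ⟨ω, hω⟩ : ∃ ω : ℤ, w * s ^ 2 = ω := ⟨(w * s ^ 2).num, by
    conv_lhs => rw [← Rat.num_div_den (w * s ^ 2), hden]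
    simp⟩
  have hω2' : ω ^ 2 = r ^ 4 + κ * r ^ 2 * s ^ 2 + s ^ 4 := by
    rw [hω] at hω2; exact_mod_cast hω2
  set r' : ℤ := ρ'.num with hr'
  set s' : ℤ := (ρ'.den : ℤ) with hs'
  have hs0' : s' ≠ 0 := by simp [hs']
  have hsq' : (s' : ℚ) ≠ 0 := by exact_mod_cast hs0'
  have hr0' : r' ≠ 0 := by simpa [hr'] using hρ'
  have hρe' : ρ' = (r' : ℚ) / s' := by simp [hr', hs', Rat.num_div_den]
  have key : r' * (2 * (r * s) * ω) = s' * (r ^ 4 - s ^ 4) := by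
    have : (r' : ℚ) * (2 * (r * s) * ω) = s' * (r ^ 4 - s ^ 4) := by
      rw [← hω]
      rw [hρe, hρe'] at hdef
      field_simp at hdef
      linear_combination hdef
    exact_mod_cast this
  have hcop2 : IsCoprime (r * s) (r ^ 4 - s ^ 4) := by
    apply IsCoprime.mul_left
    · have : IsCoprime r (-(s ^ 4)) := (hcop.pow_right (n := 4)).neg_right
      have h2 := this.add_mul_left_right (r ^ 3)
      rwa [show -(s ^ 4) + r * r ^ 3 = r ^ 4 - s ^ 4 by ring] at h2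
    · have : IsCoprime s (r ^ 4) := hcop.symm.pow_right (n := 4)
      have h2 := this.add_mul_left_right (-(s ^ 3))
      rwa [show r ^ 4 + s * -(s ^ 3) = r ^ 4 - s ^ 4 by ring] at h2
  have hdvd : r * s ∣ s' := by
    apply hcop2.dvd_of_dvd_mul_right
    rw [← key]
    exact ⟨r' * 2 * ω, by ring⟩
  obtain ⟨j, hj⟩ := hdvd
  have hj0 : j ≠ 0 := by rintro rfl; simp at hj; exact hs0' hj
  have hmu : mu ρ = (r * s).natAbs := by simp [mu, hr, hs, Int.natAbs_mul]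
  have hmu' : mu ρ' = (r' * j).natAbs * (r * s).natAbs := by
    have : mu ρ' = (r' * s').natAbs := by simp [mu, hr', hs', Int.natAbs_mul]
    rw [this, hj, ← Int.natAbs_mul]; congr 1; ring
  rw [hmu, hmu']
  have hpos : 0 < (r * s).natAbs := Int.natAbs_pos.2 (mul_ne_zero hr0 hs0)
  have hpos' : 0 < (r' * j).natAbs := Int.natAbs_pos.2 (mul_ne_zero hr0' hj0)
  by_contra hcon
  have h1 : (r' * j).natAbs = 1 := by
    by_contra h1
    have : 2 ≤ (r' * j).natAbs := by omega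
    apply hcon; nlinarith
  rw [Int.natAbs_mul] at h1
  have h1r : r'.natAbs = 1 := Nat.eq_one_of_mul_eq_one_right h1
  have h1j : j.natAbs = 1 := Nat.eq_one_of_mul_eq_one_left h1
  have h2r : r' ^ 2 = 1 := by rcases Int.natAbs_eq_iff.1 h1r with h | h <;> simp [h]
  have h2j : j ^ 2 = 1 := by rcases Int.natAbs_eq_iff.1 h1j with h | h <;> simp [h]
  have key2 : r' * (2 * ω) = j * (r ^ 4 - s ^ 4) := by
    have : (r * s) * (r' * (2 * ω)) = (r * s) * (j * (r ^ 4 - s ^ 4)) := by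
      rw [hj] at key; linear_combination key
    exact mul_left_cancel₀ (mul_ne_zero hr0 hs0) this
  apply hκ r s hr0 hs0
  have : (r' * (2 * ω)) ^ 2 = (j * (r ^ 4 - s ^ 4)) ^ 2 := by rw [key2]
  rw [mul_pow, mul_pow, mul_pow j, h2r, h2j, hω2'] at this
  linarith

/-- The doubling map on states. -/
def dbl (p : ℚ × ℚ × ℚ) : ℚ × ℚ × ℚ :=
  ((p.1 ^ 2 * p.2.1 ^ 2 + p.1 ^ 2 * p.2.2 ^ 2 - p.2.1 ^ 2 * p.2.2 ^ 2) / (2 * (p.1 * p.2.1 * p.2.2)),
   (p.1 ^ 2 * p.2.1 ^ 2 + p.2.1 ^ 2 * p.2.2 ^ 2 - p.1 ^ 2 * p.2.2 ^ 2) / (2 * (p.1 * p.2.1 * p.2.2)),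
   (p.1 ^ 2 * p.2.2 ^ 2 + p.2.1 ^ 2 * p.2.2 ^ 2 - p.1 ^ 2 * p.2.1 ^ 2) / (2 * (p.1 * p.2.1 * p.2.2)))

lemma st_dbl (N : ℚ) (hN : N ≠ 0) (hns : ∀ q : ℚ, q ^ 2 ≠ N ^ 2 + 4) (p : ℚ × ℚ × ℚ)
    (h : St N p) : St N (dbl p) := by
  obtain ⟨A, B, C⟩ := p
  obtain ⟨hA, hB, hC⟩ := st_ne N hN hns h
  exact double_pre N (A ^ 2) (B ^ 2) (C ^ 2) (A * B * C) h.1 h.2 (by ring) (by positivity)

lemma infinite_of_measure {α : Type*} (S : Set α) (m : α → ℕ) (hne : S.Nonempty)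
    (hstep : ∀ p ∈ S, ∃ q ∈ S, m p < m q) : S.Infinite := by
  intro hfin
  obtain ⟨p, hp, hmax⟩ := hfin.exists_maximalFor m S hne
  obtain ⟨q, hq, hlt⟩ := hstep p hp
  have := hmax hq hlt.le
  omega

lemma int_sq_add_four (k q : ℤ) (hk : k ≠ 0) : q ^ 2 ≠ k ^ 2 + 4 := by
  intro h
  have h1 : |q| ^ 2 = |k| ^ 2 + 4 := by rw [sq_abs, sq_abs]; exact h
  have hk1 : 1 ≤ |k| := Int.one_le_abs hk
  have hq0 : 0 ≤ |q| := abs_nonneg q
  generalize |q| = x at *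
  generalize |k| = y at *
  have hxy : y < x := by nlinarith
  have hxy2 : x < y + 2 := by nlinarith
  have : x = y + 1 := by omega
  subst this
  have : 2 * y + 1 = 4 := by nlinarith
  omega

lemma rat_sq_int (q : ℚ) (n : ℤ) (h : q ^ 2 = n) : ∃ z : ℤ, q = z ∧ z ^ 2 = n := by
  have h1 : (q ^ 2).den = 1 := by rw [h]; exact Rat.den_intCast _
  rw [Rat.den_pow] at h1
  have hden : q.den = 1 := (pow_eq_one_iff.1 h1).resolve_right (by norm_num)
  have hq : q = q.num := by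
    conv_lhs => rw [← Rat.num_div_den q, hden]
    simp
  refine ⟨q.num, hq, ?_⟩
  rw [hq] at h
  exact_mod_cast h

lemma ns_int (k : ℤ) (hk : k ≠ 0) (q : ℚ) : q ^ 2 ≠ (k : ℚ) ^ 2 + 4 := by
  intro h
  obtain ⟨z, -, hz⟩ := rat_sq_int q (k ^ 2 + 4) (by rw [h]; push_cast; ring)
  exact int_sq_add_four k z hk hz

lemma ns_inv (k : ℤ) (hk : k ≠ 0) (q : ℚ) : q ^ 2 ≠ (1 / (k : ℚ)) ^ 2 + 4 := by
  intro h
  have hkq : (k : ℚ) ≠ 0 := by exact_mod_cast hk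
  have h2 : (2 * k * q) ^ 2 = ((4 * k : ℤ) : ℚ) ^ 2 + 4 := by
    rw [mul_pow, h]; push_cast; field_simp; ring
  exact ns_int (4 * k) (by omega) _ h2

lemma st_infinite_int (k : ℤ) (hk : k ≠ 0) (hne : {p | St (k : ℚ) p}.Nonempty) :
    {p | St (k : ℚ) p}.Infinite := by
  have hkq : (k : ℚ) ≠ 0 := by exact_mod_cast hk
  refine infinite_of_measure _ (fun p => mu ((p.2.1 + p.2.2) / 2)) hne ?_
  rintro ⟨A, B, C⟩ hp
  have hp' := st_dbl _ hkq (ns_int k hk) _ hp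
  refine ⟨_, hp', ?_⟩
  obtain ⟨hA, hB, hC⟩ := st_ne _ hkq (ns_int k hk) hp
  obtain ⟨h1, h2⟩ := hp
  simp only at h1 h2
  have hV : (B + C) / 2 ≠ 0 := by
    intro h
    have : C = -B := by linarith
    rw [this] at h2; norm_num at h2
  have hsum : ((dbl (A, B, C)).2.1 + (dbl (A, B, C)).2.2) / 2 = B * C / (2 * A) := by
    simp only [dbl]; field_simp; ring
  simp only [hsum]
  refine mu_lt (k ^ 2 + 2) _ (A * ((B + C) / 2)) _ hV (mul_ne_zero hA hV) (by positivity) ?_ ?_ ?_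
  · push_cast
    have hA2 : A ^ 2 = B ^ 2 + k ^ 2 := by linarith
    rw [mul_pow, hA2]
    linear_combination ((B + C) ^ 2 / 16 + B * (B + C) / 8 + 1 / 4) * h2
  · have e : B * C / (2 * A) * (2 * ((B + C) / 2) * (A * ((B + C) / 2)))
        = B * C * ((B + C) / 2) ^ 2 := by field_simp
    rw [e]
    linear_combination (-((B ^ 2 - C ^ 2) / 4 + 1) / 4) * h2
  · intro r s hr hs h
    have h3 : ((r ^ 2 + s ^ 2) ^ 2) * ((r ^ 2 - s ^ 2) ^ 2 - 4) = (2 * k * r * s) ^ 2 := by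
      linear_combination h
    have hpos : (0 : ℤ) < r ^ 2 + s ^ 2 := by positivity
    have hq : (((2 * k * r * s : ℤ) : ℚ) / ((r ^ 2 + s ^ 2 : ℤ) : ℚ)) ^ 2
        = (((r ^ 2 - s ^ 2) ^ 2 - 4 : ℤ) : ℚ) := by
      have hne : ((r ^ 2 + s ^ 2 : ℤ) : ℚ) ≠ 0 := by exact_mod_cast hpos.ne'
      rw [div_pow, div_eq_iff (pow_ne_zero _ hne)]
      exact_mod_cast (by rw [← h3]; ring)
    obtain ⟨z, hz1, hz2⟩ := rat_sq_int _ _ hq
    have hz0 : z ≠ 0 := by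
      rintro rfl
      have : (2 * k * r * s) ^ 2 = 0 := by rw [← h3, ← hz2]; ring
      have : 2 * k * r * s = 0 := by simpa using this
      simp [hk, hr, hs] at this
    exact int_sq_add_four z (r ^ 2 - s ^ 2) hz0 (by linarith)

lemma st_infinite_inv (k : ℤ) (hk : k ≠ 0) (hne : {p | St (1 / (k : ℚ)) p}.Nonempty) :
    {p | St (1 / (k : ℚ)) p}.Infinite := by
  have hkq : (k : ℚ) ≠ 0 := by exact_mod_cast hk
  have hkq' : (1 / (k : ℚ)) ≠ 0 := by positivity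
  refine infinite_of_measure _ (fun p => mu (k * (p.1 + p.2.1))) hne ?_
  rintro ⟨A, B, C⟩ hp
  have hp' := st_dbl _ hkq' (ns_inv k hk) _ hp
  refine ⟨_, hp', ?_⟩
  obtain ⟨hA, hB, hC⟩ := st_ne _ hkq' (ns_inv k hk) hp
  obtain ⟨h1, h2⟩ := hp
  simp only at h1 h2
  have h1' : (k : ℚ) ^ 2 * (A ^ 2 - B ^ 2) = 1 := by rw [h1]; field_simp
  have hU : (k : ℚ) * (A + B) ≠ 0 := by
    intro h
    have h3 : A + B = 0 := (mul_eq_zero.1 h).resolve_left hkq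
    have : A = -B := by linarith
    rw [this] at h1'; norm_num at h1'
  have hsum : (k : ℚ) * ((dbl (A, B, C)).1 + (dbl (A, B, C)).2.1) = k * (A * B / C) := by
    simp only [dbl]; field_simp; ring
  simp only [hsum]
  refine mu_lt (-(16 * k ^ 2 + 2)) _ (2 * k * C * (k * (A + B))) _ hU (by positivity)
    (by positivity) ?_ ?_ ?_
  · push_cast
    have hC2 : C ^ 2 = B ^ 2 - 4 := by linarith
    have e : (2 * k * C * (k * (A + B))) ^ 2 = 4 * (k : ℚ) ^ 2 * C ^ 2 * (k * (A + B)) ^ 2 := by ring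
    rw [e, hC2]
    linear_combination ((k : ℚ) ^ 2 * (A ^ 2 - B ^ 2) + 1 - 2 * (k * (A + B)) ^ 2) * h1'
  · have e : (k : ℚ) * (A * B / C) * (2 * (k * (A + B)) * (2 * k * C * (k * (A + B))))
        = 4 * k ^ 2 * (A * B) * (k * (A + B)) ^ 2 := by field_simp; ring
    rw [e]
    linear_combination (-((k : ℚ) ^ 2 * (A ^ 2 - B ^ 2) + 1)) * h1'
  · intro r s hr hs h
    have h3 : ((r ^ 2 - s ^ 2) ^ 2) * ((r ^ 2 + s ^ 2) ^ 2 - 4) = -(8 * k * r * s) ^ 2 := by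
      linear_combination h
    have hr2 : 1 ≤ r ^ 2 := by have := sq_pos_of_ne_zero hr; omega
    have hs2 : 1 ≤ s ^ 2 := by have := sq_pos_of_ne_zero hs; omega
    have h4 : 0 ≤ (r ^ 2 + s ^ 2) ^ 2 - 4 := by nlinarith
    have h5 : 0 < (8 * k * r * s) ^ 2 := by positivity
    have h6 := mul_nonneg (sq_nonneg (r ^ 2 - s ^ 2)) h4
    linarith

/-- Infinitely many states give infinitely many first coordinates. -/
lemma fst_infinite (N : ℚ) (h : {p | St N p}.Infinite) :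
    {A : ℚ | ∃ B C, St N (A, B, C)}.Infinite := by
  intro hfin
  apply h
  have sqfin : ∀ (F : Set ℚ) (d : ℚ), F.Finite → {B : ℚ | ∃ A ∈ F, A ^ 2 - B ^ 2 = d}.Finite := by
    intro F d hF
    have : {B : ℚ | ∃ A ∈ F, A ^ 2 - B ^ 2 = d} = ⋃ A ∈ F, {B : ℚ | A ^ 2 - B ^ 2 = d} := by
      ext B; simp
    rw [this]
    refine hF.biUnion fun A _ => ?_
    rcases Set.eq_empty_or_nonempty {B : ℚ | A ^ 2 - B ^ 2 = d} with h0 | ⟨B0, hB0⟩
    · rw [h0]; exact Set.finite_empty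
    · refine (Set.toFinite {B0, -B0}).subset fun B hB => ?_
      have : B ^ 2 = B0 ^ 2 := by
        have h1 : A ^ 2 - B ^ 2 = d := hB
        have h2 : A ^ 2 - B0 ^ 2 = d := hB0
        linarith
      simpa using sq_eq_sq_iff_eq_or_eq_neg.1 this
  have hB := sqfin _ (N ^ 2) hfin
  have hC := sqfin _ 4 hB
  refine (hfin.prod (hB.prod hC)).subset ?_
  rintro ⟨A, B, C⟩ hp
  have hA : A ∈ {A : ℚ | ∃ B C, St N (A, B, C)} := ⟨B, C, hp⟩
  have hBm : B ∈ {B : ℚ | ∃ A ∈ {A : ℚ | ∃ B C, St N (A, B, C)}, A ^ 2 - B ^ 2 = N ^ 2} :=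
    ⟨A, hA, hp.1⟩
  exact ⟨hA, hBm, B, hBm, hp.2⟩

end Pool.Agent.MP_ebd346_nt
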